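import Mathlib

set_option autoImplicit false

/-!
# H-eigenvalues of `B₀` tensors of odd order are nonnegative

A real tensor of order `k + 1` and dimension `n` is a function on `Fin (k + 1) → Fin n`. The order is
odd exactly when `k` is even.
-/

namespace Pool.Agent.Results.MP_9e9eb1_al.HEigenvaluesNonneg

open Finset

variable {k n : ℕ}

/-- `T` is symmetric: its entries are unchanged under all permutations of the indices. -/
def IsSymm (T : (Fin (k + 1) → Fin n) → ℝ) : Prop :=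
  ∀ (σ : Equiv.Perm (Fin (k + 1))) (t : Fin (k + 1) → Fin n), T (t ∘ σ) = T t

/-- The sum of the entries of the `i`th row; the entries of this row are `T (i, t)`, where `t` runs
over all `k`-tuples of indices. -/
def rowSum (T : (Fin (k + 1) → Fin n) → ℝ) (i : Fin n) : ℝ :=
  ∑ t : Fin k → Fin n, T (Fin.cons i t)

/-- `T` is a `B₀` tensor (of order `k + 1` and dimension `n`): all row sums `R i` are nonnegative, and
`R i / n ^ k` is at least each off-diagonal entry of row `i`. -/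
def IsB0 (T : (Fin (k + 1) → Fin n) → ℝ) : Prop :=
  ∀ i : Fin n, 0 ≤ rowSum T i ∧
    ∀ t : Fin k → Fin n, t ≠ (fun _ => i) → T (Fin.cons i t) ≤ rowSum T i / (n : ℝ) ^ k

/-- The `i`th coordinate of `T x ^ k`, i.e. the sum of `T (i, t) * x (t 1) * ⋯ * x (t k)`. -/
def act (T : (Fin (k + 1) → Fin n) → ℝ) (x : Fin n → ℝ) (i : Fin n) : ℝ :=
  ∑ t : Fin k → Fin n, T (Fin.cons i t) * ∏ l, x (t l)

/-- `μ` is an H-eigenvalue of the tensor `T` of order `k + 1`: there is a nonzero real vector `x` with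
`(T x ^ k) i = μ * x i ^ k` for all `i`. -/
def IsHEigenvalue (T : (Fin (k + 1) → Fin n) → ℝ) (μ : ℝ) : Prop :=
  ∃ x : Fin n → ℝ, x ≠ 0 ∧ ∀ i, act T x i = μ * x i ^ k

/-- Every H-eigenvalue of a `B₀` tensor of odd order `k + 1`, symmetric or not, is nonnegative. -/
theorem nonneg_of_isB0 (hk : Even k) (T : (Fin (k + 1) → Fin n) → ℝ) (hT : IsB0 T) (μ : ℝ)
    (hμ : IsHEigenvalue T μ) : 0 ≤ μ := by
  obtain ⟨x, hx, h⟩ := hμ
  obtain ⟨j, hj⟩ : ∃ j, x j ≠ 0 := by
    by_contra hcon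
    push Not at hcon
    exact hx (funext hcon)
  obtain ⟨i, -, hi⟩ := Finset.exists_max_image univ (fun i => |x i|) ⟨j, mem_univ j⟩
  have hxi : 0 < |x i| := lt_of_lt_of_le (abs_pos.mpr hj) (hi j (mem_univ j))
  have hpow : 0 < x i ^ k := by
    rw [← hk.pow_abs]
    exact pow_pos hxi k
  have hn : (0 : ℝ) < (n : ℝ) ^ k := by
    have : 0 < n := Fin.pos j
    positivity
  set r : ℝ := rowSum T i / (n : ℝ) ^ k with hr
  have hr0 : 0 ≤ r := div_nonneg (hT i).1 hn.le
  have hsum0 : ∑ t : Fin k → Fin n, (r - T (Fin.cons i t)) = 0 := by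
    rw [sum_sub_distrib, sum_const, card_univ, Fintype.card_fun, Fintype.card_fin, Fintype.card_fin,
      nsmul_eq_mul]
    push_cast
    rw [hr, mul_div_cancel₀ _ hn.ne']
    simp [rowSum]
  have hsq : ∑ t : Fin k → Fin n, ∏ l, x (t l) = (∑ a, x a) ^ k := by
    rw [Finset.sum_pow', Fintype.piFinset_univ]
  have hterm : ∀ t : Fin k → Fin n,
      (r - T (Fin.cons i t)) * ∏ l, x (t l) ≤ (r - T (Fin.cons i t)) * x i ^ k := by
    intro t
    by_cases ht : t = fun _ => i
    · subst ht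
      simp
    · apply mul_le_mul_of_nonneg_left _ (sub_nonneg.mpr ((hT i).2 t ht))
      calc ∏ l, x (t l) ≤ |∏ l, x (t l)| := le_abs_self _
        _ = ∏ l, |x (t l)| := Finset.abs_prod _ _
        _ ≤ ∏ _l : Fin k, |x i| := Finset.prod_le_prod (fun _ _ => abs_nonneg _)
            (fun l _ => hi (t l) (mem_univ _))
        _ = x i ^ k := by
            rw [Finset.prod_const, card_univ, Fintype.card_fin, hk.pow_abs]
  have h1 : ∑ t : Fin k → Fin n, (r - T (Fin.cons i t)) * ∏ l, x (t l) ≤ 0 := by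
    calc _ ≤ ∑ t : Fin k → Fin n, (r - T (Fin.cons i t)) * x i ^ k :=
          Finset.sum_le_sum fun t _ => hterm t
      _ = 0 := by rw [← Finset.sum_mul, hsum0, zero_mul]
  have h2 : act T x i = r * (∑ a, x a) ^ k -
      ∑ t : Fin k → Fin n, (r - T (Fin.cons i t)) * ∏ l, x (t l) := by
    rw [← hsq, Finset.mul_sum, ← Finset.sum_sub_distrib]
    refine Finset.sum_congr rfl fun t _ => ?_
    ring
  have h3 : 0 ≤ act T x i := by
    rw [h2]
    have : 0 ≤ r * (∑ a, x a) ^ k := mul_nonneg hr0 (hk.pow_nonneg _)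
    linarith
  rw [h i] at h3
  exact nonneg_of_mul_nonneg_left h3 hpow

/-- For every odd order `m = k + 1 ≥ 3` and every dimension `n`: all H-eigenvalues of a symmetric
`B₀` tensor of order `m` and dimension `n` are nonnegative. The symmetry is not needed: the same
holds for all `B₀` tensors of odd order. -/
theorem result :
    (∀ k n : ℕ, Even k → 2 ≤ k → ∀ T : (Fin (k + 1) → Fin n) → ℝ, IsSymm T → IsB0 T →
      ∀ μ : ℝ, IsHEigenvalue T μ → 0 ≤ μ) ∧
    (∀ k n : ℕ, Even k → 2 ≤ k → ∀ T : (Fin (k + 1) → Fin n) → ℝ, IsB0 T →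
      ∀ μ : ℝ, IsHEigenvalue T μ → 0 ≤ μ) :=
  ⟨fun _ _ hk _ T _ hT μ hμ => nonneg_of_isB0 hk T hT μ hμ,
    fun _ _ hk _ T hT μ hμ => nonneg_of_isB0 hk T hT μ hμ⟩

end Pool.Agent.Results.MP_9e9eb1_al.HEigenvaluesNonneg
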