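import Mathlib

set_option autoImplicit false

/-!
# Symmetric `B₀` tensors of odd order without H-eigenvalues

A real tensor of order `k + 1` and dimension `n` is a function on `Fin (k + 1) → Fin n`. The order is
odd exactly when `k` is even. For every odd order at least three and every dimension at least two
the symmetric tensor
`c₀ e₀^⊗ + n ^ k ∑_{j ≥ 1} e_j^⊗ + ∑_{j ≥ 1} (e₀ - e_j)^⊗`, `c₀ = n ^ k + 1`,
is a `B₀` tensor and has no H-eigenvalue.
-/

namespace Pool.Agent.Results.MP_9e9eb1_al.NoHEigenvalue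

open Finset

variable {k n : ℕ}

/-- `T` is symmetric: its entries are unchanged under all permutations of the indices. -/
def IsSymm (T : (Fin (k + 1) → Fin n) → ℝ) : Prop :=
  ∀ (σ : Equiv.Perm (Fin (k + 1))) (t : Fin (k + 1) → Fin n), T (t ∘ σ) = T t

/-- The sum of the entries of the `i`th row; the entries of this row are `T (i, t)`, where `t` runs
over all `k`-tuples of indices. -/
def rowSum (T : (Fin (k + 1) → Fin n) → ℝ) (i : Fin n) : ℝ :=
  ∑ t : Fin k → Fin n, T (Fin.cons i t)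

/-- `T` is a `B₀` tensor (of order `k + 1` and dimension `n`): all row sums `R i` are nonnegative, and
`R i / n ^ k` is at least each off-diagonal entry of row `i`. -/
def IsB0 (T : (Fin (k + 1) → Fin n) → ℝ) : Prop :=
  ∀ i : Fin n, 0 ≤ rowSum T i ∧
    ∀ t : Fin k → Fin n, t ≠ (fun _ => i) → T (Fin.cons i t) ≤ rowSum T i / (n : ℝ) ^ k

/-- The `i`th coordinate of `T x ^ k`, i.e. the sum of `T (i, t) * x (t 1) * ⋯ * x (t k)`. -/
def act (T : (Fin (k + 1) → Fin n) → ℝ) (x : Fin n → ℝ) (i : Fin n) : ℝ :=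
  ∑ t : Fin k → Fin n, T (Fin.cons i t) * ∏ l, x (t l)

/-- `μ` is an H-eigenvalue of the tensor `T` of order `k + 1`: there is a nonzero real vector `x` with
`(T x ^ k) i = μ * x i ^ k` for all `i`. -/
def IsHEigenvalue (T : (Fin (k + 1) → Fin n) → ℝ) (μ : ℝ) : Prop :=
  ∃ x : Fin n → ℝ, x ≠ 0 ∧ ∀ i, act T x i = μ * x i ^ k

/-- The rank one tensor with the entries `v (t 0) * v (t 1) * ⋯ * v (t k)`. -/
def rankOne (k : ℕ) (v : Fin n → ℝ) : (Fin (k + 1) → Fin n) → ℝ := fun t => ∏ l, v (t l)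

theorem rankOne_symm (v : Fin n → ℝ) : IsSymm (rankOne k v) := by
  intro σ t
  unfold rankOne
  exact Equiv.prod_comp σ (fun l => v (t l))

theorem act_rankOne (v x : Fin n → ℝ) (i : Fin n) :
    act (rankOne k v) x i = v i * (∑ j, v j * x j) ^ k := by
  unfold act rankOne
  rw [Finset.sum_pow', Fintype.piFinset_univ, Finset.mul_sum]
  refine Finset.sum_congr rfl fun t _ => ?_
  rw [Fin.prod_univ_succ, Finset.prod_mul_distrib]
  simp [mul_assoc]

theorem rowSum_eq_act (T : (Fin (k + 1) → Fin n) → ℝ) (i : Fin n) :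
    rowSum T i = act T (fun _ => 1) i := by
  simp [rowSum, act]

/-- The coefficients of the diagonal part. -/
noncomputable def coef (k n : ℕ) (j : Fin (n + 2)) : ℝ :=
  ((n + 2 : ℕ) : ℝ) ^ k + if j = 0 then 1 else 0

/-- The vector `e_j`. -/
def ee (j : Fin (n + 2)) : Fin (n + 2) → ℝ := fun i => if i = j then 1 else 0

/-- The vector `e_0 - e_j`. -/
def dd (j : Fin (n + 2)) : Fin (n + 2) → ℝ := fun i => (if i = 0 then 1 else 0) - if i = j then 1 else 0

/-- The tensor of the counterexample, of order `k + 1` and dimension `n + 2`. -/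
noncomputable def TT (k n : ℕ) : (Fin (k + 1) → Fin (n + 2)) → ℝ := fun t =>
  (∑ j, coef k n j * rankOne k (ee j) t) + ∑ j ∈ univ.erase (0 : Fin (n + 2)), rankOne k (dd j) t

theorem act_TT (x : Fin (n + 2) → ℝ) (i : Fin (n + 2)) :
    act (TT k n) x i = coef k n i * x i ^ k +
      ∑ j ∈ univ.erase (0 : Fin (n + 2)), dd j i * (x 0 - x j) ^ k := by
  have h : act (TT k n) x i = (∑ j, coef k n j * act (rankOne k (ee j)) x i) +
      ∑ j ∈ univ.erase (0 : Fin (n + 2)), act (rankOne k (dd j)) x i := by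
    unfold act TT
    simp_rw [add_mul, Finset.sum_add_distrib, Finset.sum_mul, Finset.mul_sum]
    rw [Finset.sum_comm]
    congr 1
    · refine Finset.sum_congr rfl fun _ _ => Finset.sum_congr rfl fun _ _ => ?_
      ring
    · rw [Finset.sum_comm]
  rw [h]
  congr 1
  · simp_rw [act_rankOne]
    rw [Finset.sum_eq_single i]
    · simp [ee]
    · intro j _ hj
      simp [ee, hj.symm]
    · intro h
      exact absurd (mem_univ _) h
  · refine Finset.sum_congr rfl fun j _ => ?_
    rw [act_rankOne]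
    congr 2
    simp [dd, sub_mul, Finset.sum_sub_distrib]

theorem rowSum_TT (hk : k ≠ 0) (i : Fin (n + 2)) : rowSum (TT k n) i = coef k n i := by
  rw [rowSum_eq_act, act_TT]
  simp [hk]

theorem coef_pos (j : Fin (n + 2)) : ((n + 2 : ℕ) : ℝ) ^ k ≤ coef k n j := by
  unfold coef
  split_ifs <;> simp

theorem rankOne_ee (i j : Fin (n + 2)) (t : Fin k → Fin (n + 2)) (ht : t ≠ fun _ => i) :
    rankOne k (ee j) (Fin.cons i t) = 0 := by
  obtain ⟨l, hl⟩ : ∃ l, t l ≠ i := by
    by_contra hcon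
    push Not at hcon
    exact ht (funext hcon)
  unfold rankOne
  rw [Fin.prod_univ_succ, Fin.cons_zero]
  by_cases hij : i = j
  · subst hij
    apply mul_eq_zero_of_right
    apply Finset.prod_eq_zero (mem_univ l)
    simp [ee, hl]
  · simp [ee, hij]

theorem rankOne_dd_le (j : Fin (n + 2)) (s : Fin (k + 1) → Fin (n + 2)) :
    |rankOne k (dd j) s| ≤ 1 := by
  unfold rankOne
  rw [Finset.abs_prod]
  apply Finset.prod_le_one
  · intro _ _; exact abs_nonneg _
  · intro l _
    unfold dd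
    split_ifs <;> simp

/-- A non-diagonal entry of `(e_0 - e_j)^⊗` can be nonzero only if `j` is an index of the entry. -/
theorem rankOne_dd_eq_zero (j : Fin (n + 2)) (s : Fin (k + 1) → Fin (n + 2)) (l : Fin (k + 1))
    (h0 : s l ≠ 0) (hj : s l ≠ j) : rankOne k (dd j) s = 0 := by
  unfold rankOne
  apply Finset.prod_eq_zero (mem_univ l)
  simp [dd, h0, hj]

theorem offdiag_le (i : Fin (n + 2)) (t : Fin k → Fin (n + 2)) (ht : t ≠ fun _ => i) :
    TT k n (Fin.cons i t) ≤ 1 := by
  unfold TT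
  rw [Finset.sum_eq_zero (fun j _ => by rw [rankOne_ee i j t ht, mul_zero]), zero_add]
  -- some index of the entry is not `0`
  obtain ⟨l, hl⟩ : ∃ l : Fin (k + 1), (Fin.cons i t : Fin (k + 1) → Fin (n + 2)) l ≠ 0 := by
    by_contra hcon
    push Not at hcon
    apply ht
    funext l
    have h1 := hcon 0
    have h2 := hcon l.succ
    rw [Fin.cons_zero] at h1
    rw [Fin.cons_succ] at h2
    rw [h1, h2]
  set a := (Fin.cons i t : Fin (k + 1) → Fin (n + 2)) l with ha
  rw [Finset.sum_eq_single a]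
  · exact (abs_le.mp (rankOne_dd_le a _)).2
  · intro j _ hj
    exact rankOne_dd_eq_zero j _ l hl (fun h => hj h.symm)
  · intro h
    exact absurd (Finset.mem_erase.mpr ⟨hl, mem_univ _⟩) h

theorem TT_symm : IsSymm (TT k n) := by
  intro σ t
  unfold TT
  congr 1
  · refine Finset.sum_congr rfl fun j _ => ?_
    rw [rankOne_symm (ee j) σ t]
  · refine Finset.sum_congr rfl fun j _ => ?_
    rw [rankOne_symm (dd j) σ t]

theorem TT_B0 (hk : k ≠ 0) : IsB0 (TT k n) := by
  intro i
  have h1 : (0 : ℝ) < ((n + 2 : ℕ) : ℝ) ^ k := by positivity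
  rw [rowSum_TT hk]
  refine ⟨h1.le.trans (coef_pos i), fun t ht => (offdiag_le i t ht).trans ?_⟩
  rw [le_div_iff₀ h1, one_mul]
  exact coef_pos i

theorem TT_no_eigenvalue (hk : Even k) (hk0 : k ≠ 0) (μ : ℝ) : ¬ IsHEigenvalue (TT k n) μ := by
  rintro ⟨x, hx, h⟩
  have h0 := h 0
  rw [act_TT] at h0
  have h0' : coef k n 0 * x 0 ^ k + ∑ j ∈ univ.erase (0 : Fin (n + 2)), (x 0 - x j) ^ k =
      μ * x 0 ^ k := by
    rw [← h0]
    congr 1
    refine Finset.sum_congr rfl fun j hj => ?_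
    have : (0 : Fin (n + 2)) ≠ j := fun e => (Finset.mem_erase.mp hj).1 e.symm
    simp [dd, this]
  have hrow : ∀ j : Fin (n + 2), j ≠ 0 →
      coef k n j * x j ^ k - (x 0 - x j) ^ k = μ * x j ^ k := by
    intro j hj
    rw [← h j, act_TT, Finset.sum_eq_single j]
    · simp [dd, hj]
      ring
    · intro b _ hb
      simp [dd, hj, hb.symm]
    · intro h
      exact absurd (Finset.mem_erase.mpr ⟨hj, mem_univ _⟩) h
  have hsum : 0 ≤ ∑ j ∈ univ.erase (0 : Fin (n + 2)), (x 0 - x j) ^ k :=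
    Finset.sum_nonneg fun j _ => hk.pow_nonneg _
  by_cases hx0 : x 0 = 0
  · -- then all coordinates vanish
    apply hx
    rw [hx0] at h0'
    simp only [zero_pow hk0, mul_zero, zero_add, zero_sub] at h0'
    funext j
    by_cases hj : j = 0
    · rw [hj, hx0]; rfl
    · have := (Finset.sum_eq_zero_iff_of_nonneg (fun j _ => hk.pow_nonneg _)).mp h0' j
        (Finset.mem_erase.mpr ⟨hj, mem_univ _⟩)
      have h1 := pow_eq_zero_iff hk0 |>.mp this
      simpa using h1
  · have hpow : 0 < x 0 ^ k := hk.pow_pos hx0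
    have hμ : coef k n 0 ≤ μ := by
      by_contra hcon
      push Not at hcon
      nlinarith [mul_pos (sub_pos.mpr hcon) hpow]
    have h1 : (1 : Fin (n + 2)) ≠ 0 := by
      intro e
      have := congrArg Fin.val e
      simp at this
    have h2 := hrow 1 h1
    have hc : coef k n 1 < coef k n 0 := by
      simp [coef]
    have hx1 : 0 ≤ x 1 ^ k := hk.pow_nonneg _
    have hx01 : 0 ≤ (x 0 - x 1) ^ k := hk.pow_nonneg _
    have h3 : x 1 ^ k = 0 := by
      by_contra hcon
      have h4 : 0 < x 1 ^ k := lt_of_le_of_ne hx1 (Ne.symm hcon)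
      nlinarith [mul_pos (sub_pos.mpr (hc.trans_le hμ)) h4]
    have h5 : x 1 = 0 := (pow_eq_zero_iff hk0).mp h3
    rw [h5] at h2
    simp only [zero_pow hk0, mul_zero, sub_zero, zero_sub, neg_eq_zero] at h2
    exact hpow.ne' h2

/-- For every odd order `m = k + 1 ≥ 3` and every dimension `n ≥ 2` there is a symmetric `B₀` tensor
of order `m` and dimension `n` which has no H-eigenvalue. -/
theorem result (k n : ℕ) (hk : Even k) (hk2 : 2 ≤ k) (hn : 2 ≤ n) :
    ∃ T : (Fin (k + 1) → Fin n) → ℝ, IsSymm T ∧ IsB0 T ∧ ∀ μ : ℝ, ¬ IsHEigenvalue T μ := by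
  obtain ⟨n, rfl⟩ : ∃ m, n = m + 2 := ⟨n - 2, by omega⟩
  exact ⟨TT k n, TT_symm, TT_B0 (by omega), TT_no_eigenvalue hk (by omega)⟩

end Pool.Agent.Results.MP_9e9eb1_al.NoHEigenvalue
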